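import Mathlib
import Pool.Agent.Lib.MP_329fc6_gt.Defs
import Pool.Agent.Lib.MP_329fc6_gt.Main

namespace Pool.Agent.Results.MP_329fc6_gt.BaireQuotient

open Pool.Agent.Lib.MP_329fc6_gt

universe u

theorem result (H : Type u) [CommGroup H] [TopologicalSpace H] [IsTopologicalGroup H] [T2Space H]
    (hpre : IsPrecompact H) (hB : BaireSpace H) :
    ∃ (G : Type u) (_ : CommGroup G) (_ : TopologicalSpace G) (_ : IsTopologicalGroup G)
      (_ : T2Space G), IsPrecompact G ∧ BaireSpace G ∧ IsReflexive G ∧
      ∃ π : G →* H, Continuous π ∧ IsOpenMap π ∧ Function.Surjective π :=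
  quotient_of_reflexive H hpre

end Pool.Agent.Results.MP_329fc6_gt.BaireQuotient
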