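import Mathlib
import Pool.Agent.Lib.MP_329fc6_gt.Defs
import Pool.Agent.Lib.MP_329fc6_gt.Main

namespace Pool.Agent.Results.MP_329fc6_gt.NotQuotient

open Pool.Agent.Lib.MP_329fc6_gt

universe u

theorem result :
    ∃ (H : Type) (_ : CommGroup H) (_ : TopologicalSpace H) (_ : IsTopologicalGroup H)
      (_ : T2Space H), IsPrecompact H ∧
      ∀ (G : Type u) [CommGroup G] [TopologicalSpace G] [IsTopologicalGroup G] [T2Space G],
        IsPrecompact G → IsReflexive G →
        ¬ ∃ π : G →* H, Continuous π ∧ IsOpenMap π ∧ Function.Surjective π := by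
  obtain ⟨H, i1, i2, i3, i4, hH, h⟩ := exists_not_image.{u}
  exact ⟨H, i1, i2, i3, i4, hH, fun G _ _ _ _ hG hR ⟨π, h1, _, h3⟩ => h G hG hR π h1 h3⟩

end Pool.Agent.Results.MP_329fc6_gt.NotQuotient
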